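import Pool.Agent.Helper3.ETP3.Final
import Pool.Agent.Helper5.ETA.Boxes
import Pool.Agent.Helper19.ET.Local

/-! MP_12a1af_nt, Q1 and Q2: the answer is affirmative for every set that is covered by finitely
many sets, each of which is structured in one of five ways or has few pairs of close elements. -/

set_option autoImplicit false

namespace Pool.Agent.Results.MP_12a1af_nt.CoveredByStructure

open Filter Pointwise

/-- `rep A n` is the number of ordered pairs `(a, b)` in `A × A` with `a + b = n`. -/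
noncomputable def rep (A : Set ℕ) (n : ℕ) : ℕ :=
  {p : ℕ × ℕ | p.1 ∈ A ∧ p.2 ∈ A ∧ p.1 + p.2 = n}.ncard

/-- `cnt A x` is the number of elements of `A` in `[0, x)`. -/
noncomputable def cnt (A : Set ℕ) (x : ℕ) : ℕ := (A ∩ Set.Iio x).ncard

/-- (a) `D_x + D_x` has `o(x)` elements, where `D_x = D ∩ [0, x)`. -/
def SparseSumset (D : Set ℕ) : Prop :=
  ∀ ε : ℝ, 0 < ε → ∀ᶠ x : ℕ in atTop,
    (((D ∩ Set.Iio x) + (D ∩ Set.Iio x) : Set ℕ).ncard : ℝ) ≤ ε * x

/-- (b) The sum of `(1 - |D mod p| / p)² / p` over the primes `p` is infinite. -/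
def MissesClasses (D : Set ℕ) : Prop :=
  ¬ Summable (fun p : Nat.Primes =>
    (1 - (((fun a => a % (p : ℕ)) '' D).ncard : ℝ) / (p : ℕ)) ^ 2 / (p : ℕ))

/-- (c) Additive structure at arbitrarily many scales: for every `δ > 0` there is `C` such that for
every `K` and all large `x` there are `K` nonempty finite sets `S 0, …, S (K - 1)` of natural
numbers, each at least 16 times larger than the next one, with
`|(D ∩ [δ x, x)) + S i| ≤ C √(x |S i|)`. -/
def ManyScales (D : Set ℕ) : Prop :=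
  ∀ δ : ℝ, 0 < δ → ∃ C : ℝ, ∀ K : ℕ, ∀ᶠ x : ℕ in atTop, ∃ S : ℕ → Finset ℕ,
    (∀ i, i < K → (S i).Nonempty) ∧ (∀ i, i + 1 < K → 16 * (S (i + 1)).card ≤ (S i).card) ∧
    ∀ i, i < K →
      (({a : ℕ | a ∈ D ∧ δ * x ≤ a ∧ a < x} + (S i : Set ℕ) : Set ℕ).ncard : ℝ) ≤
        C * √((x : ℝ) * (S i).card)

/-- (c') For every `δ > 0` there is `C` such that for arbitrarily large products `m q` and all large
`x` the elements of `D` in `[δ x, x)` meet at most `C √(m q)` of the `m q` boxes (interval of length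
`x / m`) × (residue class modulo `q`). -/
def FewBoxes (D : Set ℕ) : Prop :=
  ∀ δ : ℝ, 0 < δ → ∃ C : ℝ, ∀ T : ℕ, ∃ m q : ℕ, T ≤ m * q ∧ ∀ᶠ x : ℕ in atTop,
    (((fun a => (m * a / x, a % q)) '' {a : ℕ | a ∈ D ∧ δ * x ≤ a ∧ a < x}).ncard : ℝ) ≤
      C * √((m * q : ℕ) : ℝ)

/-- The number of factors of length `n` of the characteristic word of `D`: the number of words `w`
of length `n` for which there is a position `x` such that `w i` holds iff `x + i ∈ D`, for all
`i < n`. -/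
noncomputable def factorComplexity (D : Set ℕ) (n : ℕ) : ℕ :=
  {w : Fin n → Prop | ∃ x : ℕ, ∀ i : Fin n, w i ↔ x + (i : ℕ) ∈ D}.ncard

/-- (d) `D` has factor complexity at most `n ^ (1 + o(1))` and at most `x ^ (1/2 + o(1))` elements
below `x`. -/
def LowComplexity (D : Set ℕ) : Prop :=
  (∀ η : ℝ, 0 < η → ∀ᶠ n : ℕ in atTop, (factorComplexity D n : ℝ) ≤ (n : ℝ) ^ (1 + η)) ∧
    ∀ η : ℝ, 0 < η → ∀ᶠ x : ℕ in atTop, (cnt D x : ℝ) ≤ (x : ℝ) ^ (1 / 2 + η)

/-- The value at `(k, s)` of the convolution square of the weights `p` on the `M q` cells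
`(i, j)`, `i < M`, `j < q`: the second coordinates are added modulo `q`. -/
noncomputable def convSq (M q : ℕ) (p : ℕ × ℕ → ℝ) (k s : ℕ) : ℝ :=
  ∑ w ∈ ((Finset.range M ×ˢ Finset.range q) ×ˢ (Finset.range M ×ˢ Finset.range q)).filter
    (fun w => w.1.1 + w.2.1 = k ∧ (w.1.2 + w.2.2) % q = s), p w.1 * p w.2

/-- (e) For every `C` there are `M, q ≥ 1` such that for all large `x` there are no probability
weights `p` on the cells (interval of length `x / M`) × (residue class modulo `q`), supported on the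
cells which are met by `D ∩ [0, x)`, with `M q (p * p) ≤ C` everywhere. -/
def LocallyThin (D : Set ℕ) : Prop :=
  ∀ C : ℝ, ∃ M q : ℕ, 1 ≤ M ∧ 1 ≤ q ∧ ∀ᶠ x : ℕ in atTop, ∀ p : ℕ × ℕ → ℝ, (∀ u, 0 ≤ p u) →
    (∀ u, p u ≠ 0 → ∃ n ∈ D, n < x ∧ (n * M / x, n % q) = u) →
    ∑ u ∈ Finset.range M ×ˢ Finset.range q, p u = 1 →
    ∃ k s : ℕ, C < M * q * convSq M q p k s

/-- the structured sets -/
def Structured (D : Set ℕ) : Prop :=
  SparseSumset D ∨ MissesClasses D ∨ ManyScales D ∨ FewBoxes D ∨ LowComplexity D ∨ LocallyThin D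

/-- (f) There are `o(N log N)` pairs of elements of `D` below `N²` at distance less than `N`. -/
def FewClosePairs (D : Set ℕ) : Prop :=
  ∀ ε : ℝ, 0 < ε → ∀ᶠ N : ℕ in atTop,
    ({q : ℕ × ℕ | q.1 ∈ D ∧ q.2 ∈ D ∧ q.1 < q.2 ∧ q.2 < N ^ 2 ∧ q.2 < q.1 + N}.ncard : ℝ) ≤
      ε * (N * Real.log N)

lemma sums_eq (D : Set ℕ) (x : ℕ) :
    Pool.Agent.Helper19.ET.sums D x = (D ∩ Set.Iio x) + (D ∩ Set.Iio x) := by
  ext s
  rw [Set.mem_add]
  constructor
  · rintro ⟨a, b, ha, hb, hax, hbx, hab⟩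
    exact ⟨a, ⟨ha, hax⟩, b, ⟨hb, hbx⟩, hab⟩
  · rintro ⟨a, ⟨ha, hax⟩, b, ⟨hb, hbx⟩, hab⟩
    exact ⟨a, b, ha, hb, hax, hbx, hab⟩

open Pool.Agent.Helper3.ETP3 in
lemma thin_of_lt {D : Set ℕ}
    (h : ∀ A : Set ℕ, A ⊆ D → ∀ g : ℕ, (∀ n, Pool.Agent.Helper19.ET.rep A n ≤ g) → ∀ c : ℝ, 0 < c →
      ∀ᶠ x : ℕ in atTop, ((A ∩ Set.Iio x).ncard : ℝ) < c * √(x : ℝ)) : Thin D := by
  intro A hA hb κ hκ
  obtain ⟨g, hg⟩ := hb
  exact (h A hA g hg κ hκ).mono (fun x hx => hx.le)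

/-- structured sets are thin -/
theorem Structured.thin {D : Set ℕ} (h : Structured D) : Pool.Agent.Helper3.ETP3.Thin D := by
  rcases h with h | h | h | h | h | h
  · refine thin_of_lt (fun A hA g hg c hc => ?_)
    refine Pool.Agent.Helper19.ET.thin_of_sumset (D := D) (fun ε hε => ?_) hA hg hc
    simp only [sums_eq]
    exact h ε hε
  · exact Pool.Agent.Helper3.ETP3.thin_of_primes h
  · exact Pool.Agent.Helper5.ETM.thin_of_scales h
  · exact Pool.Agent.Helper5.ETM.thin_of_fewBoxes h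
  · exact thin_of_lt (fun A hA g hg c hc =>
      Pool.Agent.Helper19.ET.thin_of_complexity h.1 h.2 hA hg hc)
  · exact thin_of_lt (fun A hA g hg c hc =>
      Pool.Agent.Helper19.ET.thin_of_locallyThin h hA hg hc)

/-- **The conjectures of Erdős and Turán hold for sets covered by finitely many structured or
Sidon-like sets.** Let `A` be contained in `D 0 ∪ … ∪ D (k - 1)`.
(I) If every `D i` is structured or has few close pairs, and `|A ∩ [0, x)| ≥ c √x` for some `c > 0`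
and all large `x` (equivalently: `A` is infinite and `a_n ≤ C n²`), then `rep A` is unbounded.
(II) If every `D i` is structured, it is enough that `|A ∩ [0, x)| ≥ c √x` for some `c > 0` and
arbitrarily large `x`. -/
theorem result (A : Set ℕ) (k : ℕ) (D : Fin k → Set ℕ) (hA : A ⊆ ⋃ i, D i) :
    ((∀ i, Structured (D i) ∨ FewClosePairs (D i)) →
      (∃ c : ℝ, 0 < c ∧ ∀ᶠ x : ℕ in atTop, c * √(x : ℝ) ≤ cnt A x) →
        ∀ R : ℕ, ∃ n : ℕ, R < rep A n) ∧
    ((∀ i, Structured (D i)) →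
      (∃ c : ℝ, 0 < c ∧ ∃ᶠ x : ℕ in atTop, c * √(x : ℝ) ≤ cnt A x) →
        ∀ R : ℕ, ∃ n : ℕ, R < rep A n) := by
  have hA' : A ⊆ ⋃ i ∈ (Finset.univ : Finset (Fin k)), D i := by simpa using hA
  constructor
  · rintro h ⟨c, hc, hx⟩ R
    by_contra hcon
    push Not at hcon
    exact (Pool.Agent.Helper3.ETP3.main Finset.univ D
      (fun i _ => (h i).imp (fun h' => h'.thin) (fun h' => h')) hA' ⟨R, hcon⟩).1 c hc hx
  · rintro h ⟨c, hc, hx⟩ R
    by_contra hcon
    push Not at hcon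
    have h1 := (Pool.Agent.Helper3.ETP3.main Finset.univ D
      (fun i _ => Or.inl (h i).thin) hA' ⟨R, hcon⟩).2 (fun i _ => (h i).thin)
    have h2 := h1 (c / 2) (by positivity)
    obtain ⟨x, hx1, hx2, hx3⟩ := (hx.and_eventually (h2.and (eventually_ge_atTop 1))).exists
    have hsq : 0 < √(x : ℝ) := Real.sqrt_pos.2 (by exact_mod_cast hx3)
    have h3 : ((A ∩ Set.Iio x).ncard : ℝ) = cnt A x := rfl
    rw [h3] at hx2
    nlinarith

end Pool.Agent.Results.MP_12a1af_nt.CoveredByStructure
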